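import Pool.Agent.Run7.h696.Conv

/-!
Every algebraic lattice with countably many compact elements in the variety generated by `M₃` is
the interstructure lattice `Lt(N/M)` of an elementary extension `N` of any given countable
nonstandard model `M` of Peano arithmetic.
-/

set_option autoImplicit false

universe u v

namespace Pool.Agent.Results.MP_fe71fa_lc.LtVarietyM3

open FirstOrder FirstOrder.Language Pool.Agent.Helper687.Arith Run7.h696

/-- Let `L` be a complete algebraic lattice with only countably many compact elements which belongs
to the variety generated by `M₃`, and let `M` be a countable model of Peano arithmetic which is not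
isomorphic to `ℕ`. Then there are a structure `N` and an elementary embedding `f : M → N` such that
the set of the elementary substructures `K` of `N` with `f(M) ⊆ K`, ordered by inclusion, is
isomorphic to `L`. Moreover `N` is countable, and `f(M)` is cofinal in `N`: for every `y` in `N`
there are `x` in `M` and `z` in `N` with `y + z = f(x)`. -/
theorem result {L : Type v} [CompleteLattice L] [IsCompactlyGenerated L]
    (hcount : {x : L | IsCompactElement x}.Countable) (hV : InVarietyM3 L)
    {M : Type u} [LA.Structure M] [M ⊨ PA] [Countable M] (hM : IsEmpty (M ≃[LA] ℕ)) :
    ∃ (N : Type u) (_ : LA.Structure N) (f : M ↪ₑ[LA] N), Countable N ∧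
      (∀ y : N, ∃ (x : M) (z : N),
        Structure.funMap (L := LA) (ArithFunc.add : LA.Functions 2) ![y, z] = f x) ∧
      Nonempty ({K : LA.ElementarySubstructure N // Set.range f ⊆ (K : Set N)} ≃o L) :=
  main hV hcount hM

end Pool.Agent.Results.MP_fe71fa_lc.LtVarietyM3
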